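import Pool.Agent.Helper162_fix.Proofs

namespace Pool.Agent.Results.MP_ad6ded_lc.NeverAutomatic

open Pool.Agent.Helper162_fix

/-- The infinite word `a` has every `x_n` as a prefix, and it is not `k`-automatic for any
`k ≥ 2` (its `k`-kernel is infinite). -/
theorem result :
    (∀ n i, i < (x n).length → (x n)[i]? = some (a i)) ∧ ∀ k, 2 ≤ k → ¬ Automatic k a :=
  ⟨x_prefix_a, not_automatic⟩

end Pool.Agent.Results.MP_ad6ded_lc.NeverAutomatic
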